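import Pool.Agent.H58.IM.Seq

/-!
Images of sequences of points given by linear recurrences along an orbit of a rational map: rational
curves of bounded degree.
-/

set_option autoImplicit false

namespace Pool.Agent.H58.IM

open MvPolynomial Filter
open Pool.Agent.Y189.DD (RC)
open Pool.Agent.Y377.ST (theta_ne)
open Pool.Agent.Q1.SL
open Pool.Agent.Q171.RC (OnRat RatInG bde)
open Pool.Agent.Q309.DU (hyper_ge)
open Pool.Agent.H58.DR

variable {n N q : ℕ}

/-- The images `g (x 0), ..., g (x B)` under the forms `g` are points of the projective variety of `S`; the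
vectors `x m` are given by linear recurrences, of order at most `r`, with coefficients which are
polynomials of degree at most `e` at the points of an orbit of a rational map of degree at most `e`, and
a ratio of two of the coordinates of the images is not algebraic over the orbit. -/
structure ISeq (q r e : ℕ) (b : ℕ → ℕ) (g : Fin (n + 1) → MvPolynomial (Fin (N + 1)) ℂ)
    (S : Set (MvPolynomial (Fin (n + 1)) ℂ)) (B : ℕ) (x : ℕ → Fin (N + 1) → ℂ) : Prop where
  ne : ∀ m ≤ B, (fun j => eval (x m) (g j)) ≠ 0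
  on : ∀ m ≤ B, ∀ F ∈ S, eval (fun j => eval (x m) (g j)) F = 0
  eqn : ∃ (t : ℕ → Fin q → ℂ) (A R : Fin q → MvPolynomial (Fin q) ℂ),
    (∀ i, (A i).totalDegree ≤ e) ∧ (∀ i, (R i).totalDegree ≤ e) ∧
    (∀ m ≤ B, ∀ i, eval (t m) (R i) ≠ 0) ∧
    (∀ m ≤ B, ∀ i, t (m + 1) i = eval (t m) (A i) / eval (t m) (R i)) ∧
    (∀ j, ∃ P : ℕ → MvPolynomial (Fin q) ℂ, (∃ k ≤ r, ∃ m ≤ B, eval (t m) (P k) ≠ 0) ∧
      (∀ k, (P k).totalDegree ≤ e) ∧
      ∀ m ≤ B, ∑ k ∈ Finset.range (r + 1), eval (t m) (P k) * x (m + k) j = 0) ∧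
    ∃ u v, Free b B t fun m => eval (x m) (g u) / eval (x m) (g v)

theorem snoc_lim (θ : (ℕ → ℂ) →+* ℂ) {q : ℕ} (a : ℕ → Fin q → ℂ) (c : ℕ → ℂ) (a' : Fin q → ℂ)
    (c' : ℂ) (h : ∀ j, (θ fun i => a i j) = a' j) (hc : θ c = c') :
    (fun j => θ fun i => (Fin.snoc (a i) (c i) : Fin (q + 1) → ℂ) j) =
      (Fin.snoc a' c' : Fin (q + 1) → ℂ) := by
  funext j
  induction j using Fin.lastCases with
  | last =>
    simp only [Fin.snoc_last]
    exact hc
  | cast j =>
    simp only [Fin.snoc_castSucc]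
    exact h j

/-- **The limit.** -/
theorem ultra_im {D r e c' : ℕ} {b : ℕ → ℕ} {S : ℕ → Set (MvPolynomial (Fin (n + 1)) ℂ)}
    (hS : ∀ i, ∀ F ∈ S i, ∃ e, e ≤ D ∧ F.IsHomogeneous e)
    {g : ℕ → Fin (n + 1) → MvPolynomial (Fin (N + 1)) ℂ}
    (hgd : ∀ i j, (g i j).totalDegree ≤ c')
    {x : ℕ → ℕ → Fin (N + 1) → ℂ} (h : ∀ i, ISeq q r e b (g i) (S i) i (x i)) :
    ∃ d0 m : ℕ, ∀ (G : ℕ → MvPolynomial (Fin (n + 1)) ℂ) (e' : ℕ),
      (∀ᶠ i in (hyperfilter ℕ : Filter ℕ), (G i).IsHomogeneous e') →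
      (¬ ∀ᶠ i in (hyperfilter ℕ : Filter ℕ),
        eval (fun j => eval (x i m) (g i j)) (G i) = 0) →
      ∀ᶠ i in (hyperfilter ℕ : Filter ℕ), ∃ p : Fin (n + 1) → Polynomial ℂ,
        (∀ j, (p j).natDegree ≤ d0) ∧ (∀ F ∈ S i, aeval p F = 0) ∧ NonC p ∧
          aeval p (G i) ≠ 0 := by
  classical
  choose t A R hAe hRe hR hA hPP u v hsp using fun i => (h i).eqn
  choose P hP0 hPe hPx using hPP
  obtain ⟨θ, hsur, hk⟩ := Pool.Agent.Q1.SL.exists_theta
  have hge : ∀ N : ℕ, ∀ᶠ i in (hyperfilter ℕ : Filter ℕ), N ≤ i := by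
    intro N
    have h1 : ∀ᶠ i : ℕ in cofinite, N ≤ i := by
      rw [Nat.cofinite_eq_atTop]
      exact eventually_ge_atTop N
    exact h1.filter_mono hyperfilter_le_cofinite
  have hΘ : ∀ f : ℕ → ℂ, (∃ n, ∀ i, n ≤ i → f i = 0) → θ f = 0 := by
    rintro f ⟨N, hN⟩
    rw [hk]
    filter_upwards [hge N] with i hi
    exact hN i hi
  obtain ⟨⟨u0, v0⟩, huv⟩ : ∃ p : Fin (n + 1) × Fin (n + 1),
      ∀ᶠ i in (hyperfilter ℕ : Filter ℕ), (u i, v i) = p := by
    by_contra hcon
    push Not at hcon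
    obtain ⟨i, hi⟩ := (eventually_all.2 hcon).exists
    exact hi _ rfl
  let ts : ℕ → Fin q → ℂ := fun m j => θ fun i => t i m j
  let xs : ℕ → Fin (N + 1) → ℂ := fun m j => θ fun i => x i m j
  let As : Fin q → MvPolynomial (Fin q) ℂ := fun j => limT θ (TD q e) fun i => A i j
  let Rs : Fin q → MvPolynomial (Fin q) ℂ := fun j => limT θ (TD q e) fun i => R i j
  let Ps : Fin (N + 1) → ℕ → MvPolynomial (Fin q) ℂ := fun j k =>
    limT θ (TD q e) fun i => P i j k
  have hPs : ∀ j k m, eval (ts m) (Ps j k) = θ fun i => eval (t i m) (P i j k) := fun j k m =>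
    eval_limT hk (T := TD q e) (F := fun i => P i j k)
      (Eventually.of_forall fun i => support_TD (hPe i j k)) fun i => t i m
  have hAs : ∀ j m, eval (ts m) (As j) = θ fun i => eval (t i m) (A i j) := fun j m =>
    eval_limT hk (T := TD q e) (F := fun i => A i j)
      (Eventually.of_forall fun i => support_TD (hAe i j)) fun i => t i m
  have hRs : ∀ j m, eval (ts m) (Rs j) = θ fun i => eval (t i m) (R i j) := fun j m =>
    eval_limT hk (T := TD q e) (F := fun i => R i j)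
      (Eventually.of_forall fun i => support_TD (hRe i j)) fun i => t i m
  have hRne : ∀ m j, eval (ts m) (Rs j) ≠ 0 := by
    intro m j h0
    rw [hRs, hk] at h0
    obtain ⟨i, hi1, hi2⟩ := (h0.and (hge m)).exists
    exact hR i m hi2 j hi1
  have hts : ∀ m j, ts (m + 1) j = eval (ts m) (As j) / eval (ts m) (Rs j) := by
    intro m j
    rw [hAs, hRs, ← theta_div hk, ← sub_eq_zero]
    change θ (fun i => t i (m + 1) j) - _ = 0
    rw [← map_sub, hk]
    filter_upwards [hge m] with i hi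
    rw [Pi.sub_apply, hA i m hi j, sub_self]
  have hP' : ∀ j, ∃ k ≤ r, ∃ m, eval (ts m) (Ps j k) ≠ 0 := by
    intro j
    obtain ⟨⟨k, m⟩, h1⟩ := theta_ne hΘ (fun (p : Fin (r + 1) × Fin (b e + 1)) i =>
      eval (t i p.2) (P i j p.1)) (max e (b e)) (fun i hi => by
        have hi1 : e ≤ i := (le_max_left _ _).trans hi
        have hi2 : b e ≤ i := (le_max_right _ _).trans hi
        obtain ⟨k, hkr, m0, hm0, hne⟩ := hP0 i j
        by_contra hcon
        push Not at hcon
        apply hne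
        have h2 := hsp i e hi1 (rename Fin.castSucc (P i j k))
          ((totalDegree_rename_le _ _).trans (hPe i j k)) (Finset.range (b e + 1))
          (by rw [Finset.card_range]; omega) (fun m hm => by
            have hm' := Finset.mem_range.1 hm
            refine ⟨by omega, ?_⟩
            rw [snoc_rename]
            exact hcon (⟨k, by omega⟩, ⟨m, hm'⟩)) m0 hm0 0
        rwa [snoc_rename] at h2)
    exact ⟨k, by omega, m, by rw [hPs]; exact h1⟩
  have hrec : ∀ j m, ∑ k ∈ Finset.range (r + 1), eval (ts m) (Ps j k) * xs (m + k) j = 0 := by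
    intro j m
    have h1 : ∑ k ∈ Finset.range (r + 1), eval (ts m) (Ps j k) * xs (m + k) j =
        θ (∑ k ∈ Finset.range (r + 1), (fun i => eval (t i m) (P i j k)) *
          fun i => x i (m + k) j) := by
      rw [map_sum]
      refine Finset.sum_congr rfl fun k _ => ?_
      rw [map_mul, hPs]
    rw [h1]
    apply hΘ
    refine ⟨m, fun i hi => ?_⟩
    rw [Finset.sum_apply]
    exact hPx i j m hi
  let gs : Fin (n + 1) → MvPolynomial (Fin (N + 1)) ℂ := fun j =>
    limT θ (TD (N + 1) c') fun i => g i j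
  have hgs : ∀ j m, eval (xs m) (gs j) = θ fun i => eval (x i m) (g i j) := fun j m =>
    eval_limT hk (T := TD (N + 1) c') (F := fun i => g i j)
      (Eventually.of_forall fun i => support_TD (hgd i j)) fun i => x i m
  obtain ⟨zs, hzs⟩ : ∃ zs : ℕ → Fin (n + 1) → ℂ,
      ∀ m, zs m = fun j => θ fun i => eval (x i m) (g i j) := ⟨_, fun _ => rfl⟩
  have hzs' : ∀ m, (fun j => eval (xs m) (gs j)) = zs m := by
    intro m
    rw [hzs]
    funext j
    exact hgs j m
  let s : Set (MvPolynomial (Fin (n + 1)) ℂ) :=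
    {F' | ∃ F : ℕ → MvPolynomial (Fin (n + 1)) ℂ,
      (∀ᶠ i in (hyperfilter ℕ : Filter ℕ), F i ∈ S i) ∧ F' = limT θ (TD (n + 1) D) F}
  have hdeg : ∀ F : ℕ → MvPolynomial (Fin (n + 1)) ℂ,
      (∀ᶠ i in (hyperfilter ℕ : Filter ℕ), F i ∈ S i) → ∃ e', e' ≤ D ∧
        ∀ᶠ i in (hyperfilter ℕ : Filter ℕ), (F i).IsHomogeneous e' := fun F hF =>
    exists_deg (D := D) (by
      filter_upwards [hF] with i hi
      exact hS i _ hi)
  have hs : ∀ G ∈ s, ∃ d, G.IsHomogeneous d := by
    rintro _ ⟨F, hF, rfl⟩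
    obtain ⟨e', -, he'⟩ := hdeg F hF
    exact ⟨e', limT_homog hk he'⟩
  have hX : ∀ m, ∀ G ∈ s, eval (zs m) G = 0 := by
    rintro m _ ⟨F, hF, rfl⟩
    obtain ⟨e', he'D, he'⟩ := hdeg F hF
    have h1 := eval_limT hk (T := TD (n + 1) D) (F := F) (by
      filter_upwards [he'] with i hi
      exact support_hom hi he'D) fun i j => eval (x i m) (g i j)
    rw [hzs, h1, hk]
    filter_upwards [hF, hge m] with i hi hmi
    exact (h i).on m hmi _ hi
  have hgen : GenY ts fun m => zs m u0 / zs m v0 := by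
    intro Q h1 m0 c
    rw [Nat.frequently_atTop_iff_infinite] at h1
    obtain ⟨W, hW, hWc⟩ := h1.exists_subset_card_eq (b Q.totalDegree + 1)
    obtain ⟨F, hF1, hF3⟩ := exists_lift hsur hk Q
    have h2 : ∀ m ∈ W, ∀ᶠ i in (hyperfilter ℕ : Filter ℕ),
        eval (Fin.snoc (t i m) (eval (x i m) (g i (u i)) / eval (x i m) (g i (v i))) :
          Fin (q + 1) → ℂ) (F i) = 0 := by
      intro m hm
      rw [← hk, hF3 fun i => (Fin.snoc (t i m) (eval (x i m) (g i (u i)) / eval (x i m) (g i (v i))) :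
          Fin (q + 1) → ℂ)]
      have hr : (θ fun i => eval (x i m) (g i (u i)) / eval (x i m) (g i (v i))) =
          zs m u0 / zs m v0 := by
        rw [hzs, ← theta_div hk, ← sub_eq_zero, ← map_sub, hk]
        filter_upwards [huv] with i hi
        rw [Pi.sub_apply, (Prod.mk.inj hi).1, (Prod.mk.inj hi).2, sub_self]
      have h3 := snoc_lim θ (fun i => t i m)
        (fun i => eval (x i m) (g i (u i)) / eval (x i m) (g i (v i))) (ts m)
        (zs m u0 / zs m v0) (fun j => rfl) hr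
      rw [h3]
      exact hW hm
    obtain ⟨cs, hcs⟩ := hsur c
    have h4 : eval (Fin.snoc (ts m0) c : Fin (q + 1) → ℂ) Q =
        θ fun i => eval (Fin.snoc (t i m0) (cs i) : Fin (q + 1) → ℂ) (F i) := by
      rw [hF3 fun i => (Fin.snoc (t i m0) (cs i) : Fin (q + 1) → ℂ)]
      rw [snoc_lim θ (fun i => t i m0) cs (ts m0) c (fun j => rfl) hcs]
    rw [h4, hk]
    filter_upwards [(Filter.eventually_all_finset W).2 h2, hge Q.totalDegree, hge (W.sup id),
      hge m0] with i hi1 hi2 hi3 hi4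
    exact hsp i Q.totalDegree hi2 (F i) (hF1 i) W (by omega) (fun m hm =>
      ⟨(Finset.le_sup (f := id) hm).trans hi3, hi1 m hm⟩) m0 hi4 (cs i)
  obtain ⟨m, p, hp1, hp2, hp3⟩ := seq_rc' (u := u0) (v := v0) hRne hts hs hP' hrec gs
    (fun m G hG => by rw [hzs' m]; exact hX m G hG) (by
      have h1 : (fun m => eval (xs m) (gs u0) / eval (xs m) (gs v0)) =
          fun m => zs m u0 / zs m v0 := by
        funext m
        rw [← hzs' m]
      rw [h1]
      exact hgen)
  refine ⟨Finset.univ.sup fun j => (p j).natDegree, m, fun G e' hG hGne => ?_⟩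
  have hev := eval_limT hk (T := TD (n + 1) e') (F := G) (by
    filter_upwards [hG] with i hi
    exact support_hom hi le_rfl) fun i j => eval (x i m) (g i j)
  have hne : aeval p (limT θ (TD (n + 1) e') G) ≠ 0 := by
    intro h0
    apply hGne
    rw [← hk, ← hev]
    have h1 := congrArg (Polynomial.eval 1) h0
    rw [Polynomial.eval_zero, poly_eval, hp2] at h1
    rw [hzs' m, hzs] at h1
    exact h1
  obtain ⟨j, k, u', v', huv'⟩ := hp3
  have hnc : NonC p := ⟨u', v', j, k, huv'⟩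
  have h1 := los_curve hsur hk p
    (fun j => Finset.le_sup (f := fun j => (p j).natDegree) (Finset.mem_univ j)) hnc
    (S := S) (T := TD (n + 1) D) (fun i F hF => by
      obtain ⟨e1, he1, he1'⟩ := hS i F hF
      exact support_hom he1' he1)
    (fun F hF => hp1 _ ⟨F, hF, rfl⟩) (T' := TD (n + 1) e') (G := G) (by
      filter_upwards [hG] with i hi
      exact support_hom hi le_rfl) hne
  filter_upwards [h1] with i hi
  obtain ⟨p', hq1, hq2, hq3, hq4, -⟩ := hi
  exact ⟨p', hq1, hq2, hq3, hq4⟩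

/-- **Sequences.** One of the points `g (x 0), ..., g (x d)` lies on a rational curve of degree at most
`d`. -/
theorem im_strong (n N D q r e c' : ℕ) (b : ℕ → ℕ) : ∃ d : ℕ,
    ∀ S : Set (MvPolynomial (Fin (n + 1)) ℂ), (∀ F ∈ S, ∃ e, e ≤ D ∧ F.IsHomogeneous e) →
      ∀ g : Fin (n + 1) → MvPolynomial (Fin (N + 1)) ℂ, (∀ j, (g j).totalDegree ≤ c') →
      ∀ x : ℕ → Fin (N + 1) → ℂ, ISeq q r e b g S d x →
        ∃ m ≤ d, OnRat S d (fun j => eval (x m) (g j)) := by
  classical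
  by_contra hcon
  push Not at hcon
  choose S hS g hg x hx hno using hcon
  obtain ⟨d0, m, hm⟩ := ultra_im hS hg hx
  obtain ⟨e0, he0⟩ := bde (n + 1) D d0
  have hG' : ∀ i, ∃ G' : MvPolynomial (Fin (n + 1)) ℂ, max d0 m ≤ i →
      (∃ e, e ≤ e0 ∧ G'.IsHomogeneous e) ∧ RatInG (S i) d0 G' ∧
        eval (fun j => eval (x i m) (g i j)) G' ≠ 0 := by
    intro i
    by_cases hi : max d0 m ≤ i
    · have hi1 : d0 ≤ i := (le_max_left _ _).trans hi
      have hi2 : m ≤ i := (le_max_right _ _).trans hi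
      obtain ⟨G', h1⟩ := he0 (S i) (hS i) (fun j => eval (x i m) (g i j)) ((hx i).ne m hi2)
        fun h => hno i m hi2 (h.mono' hi1)
      exact ⟨G', fun _ => h1⟩
    · exact ⟨0, fun h => absurd h hi⟩
  choose G' hG' using hG'
  obtain ⟨e', -, hhe⟩ := exists_deg (F := G') (D := e0) (by
    filter_upwards [hyper_ge (max d0 m)] with i hi
    exact (hG' i hi).1)
  have h1 := hm G' e' hhe (fun h0 => by
    obtain ⟨i, hi1, hi2⟩ := (h0.and (hyper_ge (max d0 m))).exists
    exact (hG' i hi2).2.2 hi1)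
  obtain ⟨i, ⟨p, hp1, hp2, hp3, hp4⟩, hi⟩ := (h1.and (hyper_ge (max d0 m))).exists
  exact hp4 ((hG' i hi).2.1 p hp3 hp1 hp2)

end Pool.Agent.H58.IM
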