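import Pool.Agent.H58.DR.Lim
import Pool.Graph.R_pool_sql_team_seeded_ab47071d.TH143.DK.Seq

/-!
Images of sequences of points given by linear recurrences along an orbit of a rational map.
-/

set_option autoImplicit false

namespace Pool.Agent.H58.IM

open MvPolynomial Filter Pool.Agent.TH143 Pool.Agent.TH143.DE Pool.Agent.TH143.HE
  Pool.Agent.TH143.DK
open Pool.Agent.Y189.DD (RC)
open Pool.Agent.Y377.ST (theta_ne)
open Pool.Agent.Q1.SL
open Pool.Agent.Q171.RC (OnRat RatInG bde)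
open Pool.Agent.Q309.DU (hyper_ge)
open Pool.Agent.H58.DR

variable {n N q : ℕ}

/-- **Points given by linear recurrences along an orbit of a rational map.** If they are not
algebraic over the orbit then there are rational curves through some of them. -/
theorem seq_rc' {t : ℕ → Fin q → ℂ} {A R : Fin q → MvPolynomial (Fin q) ℂ}
    (hR : ∀ m i, eval (t m) (R i) ≠ 0)
    (hA : ∀ m i, t (m + 1) i = eval (t m) (A i) / eval (t m) (R i))
    {s : Set (MvPolynomial (Fin (n + 1)) ℂ)}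
    (hs : ∀ G ∈ s, ∃ d, G.IsHomogeneous d) {x : ℕ → Fin (N + 1) → ℂ}
    {r : ℕ} {P : Fin (N + 1) → ℕ → MvPolynomial (Fin q) ℂ}
    (hP : ∀ j, ∃ k ≤ r, ∃ m, eval (t m) (P j k) ≠ 0)
    (hrec : ∀ j m, ∑ k ∈ Finset.range (r + 1), eval (t m) (P j k) * x (m + k) j = 0)
    (g : Fin (n + 1) → MvPolynomial (Fin (N + 1)) ℂ)
    (hX : ∀ m, ∀ G ∈ s, eval (fun j => eval (x m) (g j)) G = 0) {u v : Fin (n + 1)}
    (hgen : GenY t fun m => eval (x m) (g u) / eval (x m) (g v)) :
    ∃ m, RC s (fun j => eval (x m) (g j)) := by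
  classical
  have ht := hgen.genT
  have hB := ratM_field ht A R hR hA
  let z : ℕ → Fin (n + 1) → ℂ := fun m j => eval (x m) (g j)
  have hv : ∀ᶠ m in atTop, eval (z m) (X v : MvPolynomial (Fin (n + 1)) ℂ) ≠ 0 := by
    by_contra hcon
    have h1 : ∃ᶠ m in atTop, eval (Fin.snoc (t m) (z m u / z m v) : Fin (q + 1) → ℂ)
        (X (Fin.last q)) = 0 := by
      intro h2
      apply hcon
      filter_upwards [h2] with m hm
      rw [eval_X, Fin.snoc_last] at hm
      rw [eval_X]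
      intro h0
      apply hm
      rw [h0, div_zero]
    have h2 := hgen _ h1 0 1
    rw [eval_X, Fin.snoc_last] at h2
    exact one_ne_zero h2
  have hlin : ∀ j, LinRec (ratM t) fun m => x m j := by
    intro j
    obtain ⟨k0, hk0, m0, hm0⟩ := hP j
    refine ⟨r, fun k m => eval (t m) (P j k), fun k => polyM_mem t (P j k),
      ⟨k0, hk0, fun h0 => ?_⟩, Eventually.of_forall fun m => hrec j m⟩
    rcases ht (P j k0) with h1 | h1
    · obtain ⟨m, h1, h2⟩ := (h0.and h1).exists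
      exact h2 h1
    · exact hm0 (h1 m0)
  have hlinz : ∀ j, LinRec (ratM t) fun m => z m j := fun j => linRec_eval hB hlin (g j)
  obtain ⟨t0, h⟩ := exists_rc hB hlinz (isHomogeneous_X ℂ v) hv hs
    (fun G hG => Eventually.of_forall fun m => hX m G hG)
  have hne : (EZ : Ideal (ℕ → ℂ)) ≠ ⊤ := by
    intro h0
    have h1 : (1 : ℕ → ℂ) ∈ EZ := by
      rw [h0]
      exact Submodule.mem_top
    rw [mem_EZ] at h1
    obtain ⟨m, hm⟩ := h1.exists
    exact one_ne_zero hm
  obtain ⟨J, hJm, hJ⟩ := Ideal.exists_le_maximal _ hne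
  have hJp : J.IsPrime := hJm.isPrime
  have hdom : IsDomain ((ℕ → ℂ) ⧸ J) := Ideal.Quotient.isDomain J
  have htr : Transcendental (cf hB hJ (FractionRing ((ℕ → ℂ) ⧸ J)))
      (algebraMap ((ℕ → ℂ) ⧸ J) (FractionRing ((ℕ → ℂ) ⧸ J))
        (mk' J fun m => z (m + t0) u / eval (z (m + t0)) (X v))) := by
    simp only [eval_X]
    exact transcendental_cf hgen hB hJ t0
  obtain ⟨m, p, h1, h2, h3⟩ := (h J hJ hJp (FractionRing ((ℕ → ℂ) ⧸ J)) u htr).exists
  exact ⟨m + t0, p, h1, h2, h3⟩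

end Pool.Agent.H58.IM
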